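import Pool.Agent.Helper63.P705.BS.Goals

/-!
# MP_705522_gt, packet BS-BI: moments on a cell
-/

namespace Pool.Agent.Helper55.BS

open Pool.Agent.Helper63.P705
open Pool.Agent.Helper53.PT (mo mo_mono)

theorem bI : BI := by
  intro hN a2 ha ha' j hj hj' θ hθ0 hθ1
  have h1 : (a2 : ℝ) / 8192 ≤ 1 / 2 := by
    have : (a2 : ℝ) < 4096 := by exact_mod_cast ha'
    rw [div_le_div_iff₀ (by norm_num) (by norm_num)]
    linarith
  have h2 : mo θ j ≤ mo (a2 / 8192) j := mo_mono (by linarith) hθ1 h1 j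
  have h3 := hN.mom a2 ha ha' j hj hj'
  have h4 := (abs_le.1 h3).1
  have h5 : ((momN a2 j + 2 : ℕ) : ℝ) / 2 ^ 40 = (momN a2 j : ℝ) / 2 ^ 40 + 2⁻¹ ^ 39 := by
    rw [Nat.cast_add]
    generalize ((momN a2 j : ℕ) : ℝ) = m
    push_cast
    norm_num
    ring
  rw [h5]
  linarith

end Pool.Agent.Helper55.BS
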